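import Mathlib
import Pool.Agent.Helper99.SZ.Stmts

/-!
Module CU3 of the crew project on MP_bde085_nt: a rational `S`-unit is a unit at the `P_j`.
-/

set_option autoImplicit false

namespace Pool.Helper99.SZ

open NumberField

section

variable {K : Type} [Field K] [NumberField K]

theorem cu3_one {P : Ideal (𝓞 K)} {v : Kˣ → ℤ} (hv : IsVal P v) : v 1 = 0 := by
  have := hv.mul 1 1
  rw [mul_one] at this
  linarith

theorem cu3_pow {P : Ideal (𝓞 K)} {v : Kˣ → ℤ} (hv : IsVal P v) (x : Kˣ) (t : ℕ) :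
    v (x ^ t) = t * v x := by
  induction t with
  | zero => rw [pow_zero, cu3_one hv]; simp
  | succ t ih =>
    rw [pow_succ, hv.mul, ih]
    push_cast
    ring

theorem cu3_inv {P : Ideal (𝓞 K)} {v : Kˣ → ℤ} (hv : IsVal P v) (x : Kˣ) :
    v x⁻¹ = - v x := by
  have := hv.mul x⁻¹ x
  rw [inv_mul_cancel, cu3_one hv] at this
  linarith

/-- natural numbers prime to `p` -/
theorem cu3_prime {P : Ideal (𝓞 K)} (hP : P.IsPrime) {v : Kˣ → ℤ} (hv : IsVal P v) (p : ℕ)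
    (hpP : ((p : ℕ) : 𝓞 K) ∈ P) (n : ℕ) (hn : n.Coprime p) (x : Kˣ) (hx : (x : K) = (n : K)) :
    v x = 0 := by
  have hn' : ((n : ℕ) : 𝓞 K) ∉ P := by
    intro h
    apply hP.ne_top
    rw [Ideal.eq_top_iff_one]
    have h1 : (n : ℤ) * Nat.gcdA n p + (p : ℤ) * Nat.gcdB n p = 1 := by
      rw [← Nat.gcd_eq_gcd_ab, hn]
      rfl
    have h2 : ((n : ℕ) : 𝓞 K) * ((Nat.gcdA n p : ℤ) : 𝓞 K) +
        ((p : ℕ) : 𝓞 K) * ((Nat.gcdB n p : ℤ) : 𝓞 K) = 1 := by exact_mod_cast h1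
    rw [← h2]
    exact P.add_mem (P.mul_mem_right _ h) (P.mul_mem_right _ hpP)
  have hone : (1 : 𝓞 K) ∉ P := fun h => hP.ne_top ((Ideal.eq_top_iff_one P).mpr h)
  have h0 : (0 : ℤ) ≤ v x := by
    have := (hv.dv 0 x).mp ⟨(n : 𝓞 K), 1, hone, by simp, by rw [hx]; simp⟩
    simpa using this
  have h1 : ¬ (1 : ℤ) ≤ v x := by
    intro h
    obtain ⟨a, b, hb, ha, hab⟩ := (hv.dv 1 x).mpr (by simpa using h)
    rw [pow_one] at ha
    have h2 : ((n : ℕ) : 𝓞 K) * b = a := by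
      apply RingOfIntegers.coe_injective
      rw [hx] at hab
      push_cast
      exact hab
    rw [← h2] at ha
    rcases hP.mem_or_mem ha with h3 | h3
    · exact hn' h3
    · exact hb h3
  omega

/-- natural numbers -/
theorem cu3_nat {P : Ideal (𝓞 K)} (hP : P.IsPrime) {v : Kˣ → ℤ} (hv : IsVal P v) (p : ℕ)
    (hp : p.Prime) (hpP : ((p : ℕ) : 𝓞 K) ∈ P) (y : Kˣ) (hy : (y : K) = (p : K)) (n : ℕ)
    (hn : n ≠ 0) (x : Kˣ) (hx : (x : K) = (n : K)) : v x = n.factorization p * v y := by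
  obtain ⟨t, m, hm, hnm⟩ : ∃ t m : ℕ, m.Coprime p ∧ n = p ^ t * m ∧ t = n.factorization p := by
    refine ⟨n.factorization p, n / p ^ n.factorization p, ?_, ?_, rfl⟩
    · exact (Nat.coprime_ordCompl hp hn).symm
    · exact (Nat.ordProj_mul_ordCompl_eq_self n p).symm
  obtain ⟨hnm, ht⟩ := hnm
  have hm0 : m ≠ 0 := by
    rintro rfl
    exact hn (by rw [hnm]; simp)
  have hmK : (m : K) ≠ 0 := by exact_mod_cast hm0
  obtain ⟨z, hz⟩ : ∃ z : Kˣ, (z : K) = (m : K) := ⟨Units.mk0 _ hmK, rfl⟩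
  have hxz : x = y ^ t * z := by
    apply Units.ext
    rw [hx, hnm]
    push_cast
    rw [hy, hz]
  rw [hxz, hv.mul, cu3_pow hv, cu3_prime hP hv p hpP m hm z hz, ← ht]
  ring

theorem cu3_neg {P : Ideal (𝓞 K)} {v : Kˣ → ℤ} (hv : IsVal P v) (x : Kˣ) :
    v (-x) = v x := by
  have h1 : v (-1) = 0 := by
    have h := hv.mul (-1) (-1)
    rw [neg_mul_neg, one_mul, cu3_one hv] at h
    linarith
  have h2 := hv.mul (-1) x
  rw [neg_one_mul, h1, zero_add] at h2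
  exact h2

/-- rational numbers -/
theorem cu3_rat {P : Ideal (𝓞 K)} (hP : P.IsPrime) {v : Kˣ → ℤ} (hv : IsVal P v) (p : ℕ)
    (hp : p.Prime) (hpP : ((p : ℕ) : 𝓞 K) ∈ P) (y : Kˣ) (hy : (y : K) = (p : K)) (q : ℚ)
    (x : Kˣ) (hx : (x : K) = algebraMap ℚ K q) :
    v x = ((q.num.natAbs.factorization p : ℤ) - (q.den.factorization p : ℤ)) * v y := by
  have hq : q ≠ 0 := by
    rintro rfl
    rw [map_zero] at hx
    exact x.ne_zero hx
  have hnum : q.num.natAbs ≠ 0 := by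
    rw [Int.natAbs_ne_zero]
    exact Rat.num_ne_zero.mpr hq
  have hnumK : ((q.num.natAbs : ℕ) : K) ≠ 0 := by exact_mod_cast hnum
  have hdenK : ((q.den : ℕ) : K) ≠ 0 := by exact_mod_cast q.den_nz
  obtain ⟨a, ha⟩ : ∃ a : Kˣ, (a : K) = ((q.num.natAbs : ℕ) : K) := ⟨Units.mk0 _ hnumK, rfl⟩
  obtain ⟨b, hb⟩ : ∃ b : Kˣ, (b : K) = ((q.den : ℕ) : K) := ⟨Units.mk0 _ hdenK, rfl⟩
  have hxK : (x : K) = (q.num : K) / (q.den : K) := by
    rw [hx]
    have h := Rat.num_div_den q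
    have h2 : algebraMap ℚ K q = algebraMap ℚ K ((q.num : ℚ) / (q.den : ℚ)) := by rw [h]
    rw [h2, map_div₀, map_intCast, map_natCast]
  have hva := cu3_nat hP hv p hp hpP y hy _ hnum a ha
  have hvb := cu3_nat hP hv p hp hpP y hy _ q.den_nz b hb
  have hcases : x = a * b⁻¹ ∨ x = -(a * b⁻¹) := by
    rcases Int.natAbs_eq q.num with h | h
    · left
      apply Units.ext
      rw [hxK]
      push_cast
      rw [ha, hb, div_eq_mul_inv]
      congr 1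
      have : (q.num : K) = (((q.num.natAbs : ℕ) : ℤ) : K) := congrArg _ h
      rw [this]
      simp
    · right
      apply Units.ext
      rw [hxK]
      push_cast
      rw [ha, hb, div_eq_mul_inv, ← neg_mul]
      congr 1
      have : (q.num : K) = ((-((q.num.natAbs : ℕ) : ℤ) : ℤ) : K) := congrArg _ h
      rw [this]
      push_cast
      simp
  have hvx : v x = v a - v b := by
    rcases hcases with h | h
    · rw [h, hv.mul, cu3_inv hv]
      ring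
    · rw [h, cu3_neg hv, hv.mul, cu3_inv hv]
      ring
  rw [hvx, hva, hvb]
  ring

end

theorem st_CU3 (hVAL : ST_VAL) (hVALS : ST_VALS) : ST_CU3 := by
  intro K _ _ β a b c κ m p P 𝔞 hcd q u x hu hSU
  funext j
  have hpj := hcd.pp j
  have hpK : ((p j : ℕ) : K) ≠ 0 := by exact_mod_cast hpj.ne_zero
  have hpO : ((p j : ℕ) : 𝓞 K) ≠ 0 := by exact_mod_cast hpj.ne_zero
  obtain ⟨y, hy⟩ : ∃ y : Kˣ, (y : K) = ((p j : ℕ) : K) := ⟨Units.mk0 _ hpK, rfl⟩
  obtain ⟨Q, hQ, hpQ, hQP⟩ := hcd.oth j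
  have hQ0 : Q ≠ ⊥ := by
    rintro rfl
    exact hpO ((Ideal.mem_bot).mp hpQ)
  obtain ⟨v, hv⟩ := hVAL K (P j) (hcd.pr j).1 (hcd.pr j).2
  obtain ⟨w, hw⟩ := hVAL K Q hQ hQ0
  have h1 := (hVALS K m P hcd.inj hcd.pr x u hSU (P j) (hcd.pr j).1 (hcd.pr j).2 v hv).1 j rfl
  have h2 := (hVALS K m P hcd.inj hcd.pr x u hSU Q hQ hQ0 w hw).2 (by
    intro i hi
    by_cases hij : i = j
    · subst hij
      exact hQP hi.symm
    · have hcop : (p i).Coprime (p j) :=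
        (Nat.coprime_primes (hcd.pp i) hpj).mpr (fun h => hij (hcd.pinj h))
      have hpi : ((p i : ℕ) : 𝓞 K) ∈ Q := by
        rw [← hi]
        exact hcd.pm i
      apply hQ.ne_top
      rw [Ideal.eq_top_iff_one]
      have h3 : ((p i : ℕ) : ℤ) * Nat.gcdA (p i) (p j) + ((p j : ℕ) : ℤ) * Nat.gcdB (p i) (p j) =
          1 := by
        rw [← Nat.gcd_eq_gcd_ab, hcop]
        rfl
      have h4 : ((p i : ℕ) : 𝓞 K) * ((Nat.gcdA (p i) (p j) : ℤ) : 𝓞 K) +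
          ((p j : ℕ) : 𝓞 K) * ((Nat.gcdB (p i) (p j) : ℤ) : 𝓞 K) = 1 := by exact_mod_cast h3
      rw [← h4]
      exact Q.add_mem (Q.mul_mem_right _ hpi) (Q.mul_mem_right _ hpQ))
  have h5 := cu3_rat (hcd.pr j).1 hv (p j) hpj (hcd.pm j) y hy q u hu
  have h6 := cu3_rat hQ hw (p j) hpj hpQ y hy q u hu
  have h7 : (1 : ℤ) ≤ w y := by
    have := (hw.dv 1 y).mp ⟨((p j : ℕ) : 𝓞 K), 1,
      fun h => hQ.ne_top ((Ideal.eq_top_iff_one Q).mpr h), by rw [pow_one]; exact hpQ, by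
        rw [hy]; simp⟩
    simpa using this
  rw [h2] at h6
  rcases mul_eq_zero.mp h6.symm with h8 | h8
  · rw [h1, h8, zero_mul] at h5
    rw [h5]
    rfl
  · omega

end Pool.Helper99.SZ
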