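import Mathlib
import Pool.Agent.Helper99.SZ.Stmts3

/-!
Module AN5R of the crew project on MP_bde085_nt: the Schwarz lemma on a disc of radius `R ≥ 1`.
-/

set_option autoImplicit false

namespace Pool.Helper99.SZ

theorem st_AN5R : ST_AN5R := by
  intro T f g hg hf M R hR hM
  have h1 : f 1 = g 1 := by rw [hf 1, one_pow, one_mul]
  rw [h1]
  have hR0 : (0 : ℝ) < R := lt_of_lt_of_le one_pos hR
  have hRT : (0 : ℝ) < R ^ T := pow_pos hR0 T
  rw [← le_div_iff₀ hRT]
  refine Complex.norm_le_of_forall_mem_frontier_norm_le (U := Metric.ball (0 : ℂ) R)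
    Metric.isBounded_ball hg.diffContOnCl (fun w hw => ?_) ?_
  · rw [frontier_ball _ hR0.ne', mem_sphere_zero_iff_norm] at hw
    have h2 := hM w hw
    rw [hf w, norm_mul, norm_pow, hw] at h2
    rw [le_div_iff₀ hRT, mul_comm]
    exact h2
  · rw [closure_ball _ hR0.ne', mem_closedBall_zero_iff, norm_one]
    exact hR

end Pool.Helper99.SZ
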