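import Mathlib
import Pool.Agent.Helper99.SZ.Stmts

/-!
Module CALS of the crew project on MP_bde085_nt: a calculus lemma.
-/

set_option autoImplicit false

namespace Pool.Helper99.SZ

theorem st_CALS : ST_CALS := by
  intro C A hC
  obtain ⟨s, hs⟩ : ∃ s : ℝ, s = 2 * (A : ℝ) + 1 := ⟨_, rfl⟩
  have hA : (0 : ℝ) ≤ (A : ℝ) := Nat.cast_nonneg A
  have hs1 : 1 ≤ s := by rw [hs]; linarith
  have hs0 : 0 < s := by linarith
  have hls : 0 ≤ Real.log s := Real.log_nonneg hs1
  have hl2C : 0 ≤ Real.log (2 * C) := Real.log_nonneg (by linarith)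
  obtain ⟨c, hc⟩ : ∃ c : ℝ, c = 2 * (Real.log (2 * C) + A * Real.log s + C + 1 / 2) := ⟨_, rfl⟩
  have hc0 : 0 ≤ c := by
    rw [hc]
    have : 0 ≤ (A : ℝ) * Real.log s := mul_nonneg hA hls
    linarith
  refine ⟨C * (1 + c) ^ A, ?_, ?_⟩
  · have h1 : 1 ≤ (1 + c) ^ A := one_le_pow₀ (by linarith)
    nlinarith
  · intro t M R hM hR hMR ht h
    obtain ⟨L, hL⟩ : ∃ L : ℝ, L = Real.log (1 + t) := ⟨_, rfl⟩
    have hL0 : 0 ≤ L := by rw [hL]; exact Real.log_nonneg (by linarith)
    rw [← hL] at h
    have hRL : 1 ≤ R + L := by linarith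
    have hRLA : 1 ≤ (R + L) ^ A := one_le_pow₀ hRL
    have hexp : 1 ≤ Real.exp (C * R) := Real.one_le_exp (by positivity)
    have h1 : t ≤ C * Real.exp (C * R) * (R + L) ^ A := by
      refine h.trans ?_
      apply mul_le_mul_of_nonneg_right _ (by linarith)
      exact mul_le_mul_of_nonneg_left hMR (by linarith)
    have h2 : 1 + t ≤ 2 * C * Real.exp (C * R) * (R + L) ^ A := by
      have h3 : 1 ≤ C * Real.exp (C * R) * (R + L) ^ A := by
        have h4 : 1 ≤ C * Real.exp (C * R) := by nlinarith
        nlinarith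
      linarith
    have h5 : L ≤ Real.log (2 * C) + C * R + A * Real.log (R + L) := by
      rw [hL]
      have h6 : Real.log (1 + t) ≤ Real.log (2 * C * Real.exp (C * R) * (R + L) ^ A) :=
        Real.log_le_log (by linarith) h2
      have h7 : Real.log (2 * C * Real.exp (C * R) * (R + L) ^ A) =
          Real.log (2 * C) + C * R + A * Real.log (R + L) := by
        rw [Real.log_mul (by positivity) (by positivity), Real.log_mul (by positivity)
          (Real.exp_pos _).ne', Real.log_exp, Real.log_pow]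
      rw [h7] at h6
      rw [← hL] at h6 ⊢
      exact h6
    have h8 : Real.log (R + L) ≤ Real.log s + (R + L) / s := by
      have h9 : Real.log ((R + L) / s) ≤ (R + L) / s - 1 := Real.log_le_sub_one_of_pos (by positivity)
      rw [Real.log_div (by positivity) hs0.ne'] at h9
      linarith
    have h10 : (A : ℝ) * ((R + L) / s) ≤ (R + L) / 2 := by
      rw [mul_div_assoc', div_le_div_iff₀ hs0 two_pos, hs]
      nlinarith
    have h11 : L ≤ c * R := by
      have h12 : (A : ℝ) * Real.log (R + L) ≤ A * Real.log s + (R + L) / 2 := by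
        have := mul_le_mul_of_nonneg_left h8 hA
        rw [mul_add] at this
        linarith
      have h13 : L ≤ 2 * (Real.log (2 * C) + C * R + A * Real.log s + R / 2) := by linarith
      have h14 : 0 ≤ (A : ℝ) * Real.log s := mul_nonneg hA hls
      have h15 : Real.log (2 * C) ≤ Real.log (2 * C) * R := by nlinarith
      have h16 : (A : ℝ) * Real.log s ≤ (A : ℝ) * Real.log s * R := by nlinarith
      rw [hc]
      nlinarith
    refine h.trans ?_
    have h17 : (R + L) ^ A ≤ ((1 + c) * R) ^ A := by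
      apply pow_le_pow_left₀ (by linarith)
      linarith
    have h18 : 0 ≤ C * M := by positivity
    calc C * M * (R + L) ^ A ≤ C * M * ((1 + c) * R) ^ A := mul_le_mul_of_nonneg_left h17 h18
      _ = C * (1 + c) ^ A * M * R ^ A := by rw [mul_pow]; ring

end Pool.Helper99.SZ
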