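import Pool.Agent.Helper99.SZ.Stmts2
import Pool.Agent.Helper33.SZ.CNT

/-! MP_bde085_nt: module CN2, counting `S`-units with an explicit constant. -/

set_option autoImplicit false

namespace Pool.Helper99.SZ

open NumberField

theorem cn2_main (h4 : ST_SUF) (m : ℕ) (C1 C2 C : ℝ) (hC1 : 1 ≤ C1) (hC2 : 1 ≤ C2)
    (hCC : C1 + 2 * C2 * (8 * ((m : ℝ) + 4)) ^ (3 + m) ≤ C)
    (H1 : ∀ (K : Type) [Field K] [NumberField K],
    Module.finrank ℚ K = 3 → ∀ σ : Fin 3 → (K →+* ℂ), Function.Injective σ →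
    ∀ P : Fin m → Ideal (𝓞 K), Function.Injective P → (∀ j, (P j).IsPrime ∧ P j ≠ ⊥) →
    ∀ G1 : Subgroup Kˣ, -1 ∈ G1 → (∀ u ∈ G1, ∃ a, SU P a u) →
    ∃ (n : ℕ) (s : Fin n → Kˣ) (α : Fin n → Fin m → ℤ),
      n + 1 ≤ Fintype.card (InfinitePlace K) + m ∧ (∀ i, s i ∈ G1) ∧ (∀ i, SU P (α i) (s i)) ∧
      (∀ u ∈ G1, ∃ z : Fin n → ℤ, u = ∏ i, s i ^ (z i) ∨ u = -∏ i, s i ^ (z i)) ∧
      CB σ P s α C1)
    (H2 : ∀ (K : Type) [Field K] [NumberField K],
    Module.finrank ℚ K = 3 → ∀ P : Fin m → Ideal (𝓞 K), Function.Injective P →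
    (∀ j, (P j).IsPrime ∧ P j ≠ ⊥) → ∀ κ : 𝓞 K, κ ≠ 0 → ∀ (nn : Fin m → ℕ) (𝔞 : Ideal (𝓞 K)),
    Ideal.span {κ} = 𝔞 * ∏ j, P j ^ nn j → ∀ A h ν ρ : ℝ, 1 ≤ h →
    Real.log |(NumberField.discr K : ℝ)| ≤ h → 1 ≤ A → Real.log (Ideal.absNorm 𝔞) ≤ A →
    ((BK.ID K (2 * Real.sqrt |(NumberField.discr K : ℝ)|)).ncard : ℝ) ≤ ν →
    C2 * (A + h + ∑ j, Real.log (Ideal.absNorm (P j))) ≤ ρ →
    (TS P κ nn A ρ).Finite ∧ ρ ^ (Fintype.card (InfinitePlace K) + m) ≤
      C2 * ν * A * h ^ (Fintype.card (InfinitePlace K) - 1) *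
        (∏ j, Real.log (Ideal.absNorm (P j))) * ((TS P κ nn A ρ).ncard : ℝ)) :
    ∀ (K : Type) [Field K] [NumberField K],
    Module.finrank ℚ K = 3 → ∀ σ : Fin 3 → (K →+* ℂ), Function.Injective σ →
    ∀ P : Fin m → Ideal (𝓞 K), Function.Injective P → (∀ j, (P j).IsPrime ∧ P j ≠ ⊥) →
    ∀ κ : 𝓞 K, κ ≠ 0 → ∀ (nn : Fin m → ℕ) (𝔞 : Ideal (𝓞 K)),
    Ideal.span {κ} = 𝔞 * ∏ j, P j ^ nn j →
    ∀ G1 : Subgroup Kˣ, -1 ∈ G1 → (∀ u ∈ G1, ∃ a, SU P a u) → ∀ q0 : ℕ,
    (∀ (ι : Type) [Fintype ι] (f : ι → Kˣ), (∀ i, ∃ a, SU P a (f i)) →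
      ∃ F : Finset ι, Fintype.card ι ≤ q0 * F.card ∧ ∀ i ∈ F, ∀ j ∈ F, f i * (f j)⁻¹ ∈ G1) →
    ∃ (n : ℕ) (s : Fin n → Kˣ) (α : Fin n → Fin m → ℤ),
      n + 1 ≤ Fintype.card (InfinitePlace K) + m ∧ (∀ i, s i ∈ G1) ∧ (∀ i, SU P (α i) (s i)) ∧
      CB σ P s α C ∧ ∀ A h ν ρ : ℝ, 1 ≤ h → Real.log |(NumberField.discr K : ℝ)| ≤ h → 1 ≤ A →
      Real.log (Ideal.absNorm 𝔞) ≤ A →
      ((BK.ID K (2 * Real.sqrt |(NumberField.discr K : ℝ)|)).ncard : ℝ) ≤ ν →
      C * (A + h + ∑ j, Real.log (Ideal.absNorm (P j))) ≤ ρ →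
      ρ ^ (Fintype.card (InfinitePlace K) + m) ≤
        C * q0 * ν * A * h ^ (Fintype.card (InfinitePlace K) - 1) *
        (∏ j, Real.log (Ideal.absNorm (P j))) *
        ({a : ℤ × (Fin n → ℤ) | nrmS σ P κ nn s α A a ≤ ρ}.ncard : ℝ) := by
  classical
  set B : ℝ := 8 * ((m : ℝ) + 4) with hB
  have hB1 : 1 ≤ B := by
    have : (0 : ℝ) ≤ m := Nat.cast_nonneg m
    rw [hB]
    linarith
  have hBp : 1 ≤ B ^ (3 + m) := one_le_pow₀ hB1
  have hBp' : B ≤ B ^ (3 + m) := by
    calc B = B ^ 1 := (pow_one B).symm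
      _ ≤ B ^ (3 + m) := pow_le_pow_right₀ hB1 (by omega)
  intro K _ _ hK σ hσ P hPi hP κ hκ nn 𝔞 h𝔞 G1 hG1 hG2 q0 hq0
  obtain ⟨n, s, α, hn, hsG, hsS, hgen, hCB⟩ := H1 K hK σ hσ P hPi hP G1 hG1 hG2
  obtain ⟨S1, S2, S3, S4, -, -⟩ := h4 K m P hPi hP
  have hP0 : ∀ j, P j ≠ ⊥ := fun j => (hP j).2
  have hlogP : ∀ j, 0 ≤ Real.log (Ideal.absNorm (P j)) := fun j => cnt_NP _ (hP0 j)
  have hS0 : SU P 0 1 := (S4 1).2 ⟨1, by simp⟩
  have hSn : SU P 0 (-1 : Kˣ) := (S4 (-1)).2 ⟨-1, by simp⟩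
  have hCBC : CB σ P s α C := by
    intro z i
    refine (hCB z i).trans (mul_le_mul_of_nonneg_right ?_ ?_)
    · have : 0 ≤ 2 * C2 * B ^ (3 + m) := by positivity
      linarith
    · apply add_nonneg
      · exact Finset.sum_nonneg fun k _ => abs_nonneg _
      · exact Finset.sum_nonneg fun j _ => mul_nonneg (abs_nonneg _) (hlogP j)
  refine ⟨n, s, α, hn, hsG, hsS, hCBC, ?_⟩
  intro A h ν ρ hh hdisc hA h𝔞A hν hρC
  have hsum0 : 0 ≤ ∑ j, Real.log (Ideal.absNorm (P j)) := Finset.sum_nonneg fun j _ => hlogP j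
  have hX : 0 ≤ A + h + ∑ j, Real.log (Ideal.absNorm (P j)) := by linarith
  have hρ : (C1 + 2 * C2 * B ^ (3 + m)) * (A + h + ∑ j, Real.log (Ideal.absNorm (P j))) ≤ ρ :=
    (mul_le_mul_of_nonneg_right hCC hX).trans hρC
  have hρ0 : 0 ≤ ρ := by
    refine le_trans ?_ hρ
    apply mul_nonneg _ hX
    positivity
  have hB0 : 0 < B := by linarith
  set ρ' : ℝ := ρ / B with hρ'
  have hρρ' : B * ρ' = ρ := by
    rw [hρ']
    field_simp
  have hρ'0 : 0 ≤ ρ' := div_nonneg hρ0 hB0.le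
  have hcond : C2 * (A + h + ∑ j, Real.log (Ideal.absNorm (P j))) ≤ ρ' := by
    rw [hρ', le_div_iff₀ hB0]
    refine le_trans ?_ hρ
    have h5 : C2 * B ≤ C1 + 2 * C2 * B ^ (3 + m) := by
      have h6 : C2 * B ≤ C2 * B ^ (3 + m) := mul_le_mul_of_nonneg_left hBp' (by linarith)
      have h7 : 0 ≤ C2 * B ^ (3 + m) := by positivity
      linarith
    calc C2 * (A + h + ∑ j, Real.log (Ideal.absNorm (P j))) * B =
        C2 * B * (A + h + ∑ j, Real.log (Ideal.absNorm (P j))) := by ring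
      _ ≤ _ := mul_le_mul_of_nonneg_right h5 hX
  obtain ⟨hfin, hPHS⟩ := H2 K hK P hPi hP κ hκ nn 𝔞 h𝔞 A h ν ρ' hh hdisc hA h𝔞A hν hcond
  -- the target set
  have hfinS := cnt_fin σ P hP0 κ hκ nn s α C1 A ρ (by linarith) hA hCB
  -- counting
  have hcount : (TS P κ nn A ρ').ncard ≤
      2 * q0 * {a : ℤ × (Fin n → ℤ) | nrmS σ P κ nn s α A a ≤ ρ}.ncard := by
    have : Fintype ↥(TS P κ nn A ρ') := hfin.fintype
    obtain ⟨F, hF1, hF2⟩ := hq0 (↥(TS P κ nn A ρ')) (fun x => x.1.2) (by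
      intro x
      obtain ⟨_, _, a, ha, _⟩ := x.2
      exact ⟨a, ha⟩)
    have hcard : (TS P κ nn A ρ').ncard = Fintype.card ↥(TS P κ nn A ρ') := by
      rw [← Nat.card_eq_fintype_card]
      rfl
    rw [hcard]
    refine hF1.trans ?_
    have hFc : F.card ≤ 2 * {a : ℤ × (Fin n → ℤ) | nrmS σ P κ nn s α A a ≤ ρ}.ncard := by
      rcases F.eq_empty_or_nonempty with rfl | ⟨x0, hx0⟩
      · simp
      · have hz : ∀ x : ↥(TS P κ nn A ρ'), ∃ z : Fin n → ℤ, x ∈ F →
            (x.1.2 * (x0.1.2)⁻¹ = ∏ i, s i ^ (z i) ∨ x.1.2 * (x0.1.2)⁻¹ = -∏ i, s i ^ (z i)) := by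
          intro x
          by_cases hx : x ∈ F
          · obtain ⟨z, hz⟩ := hgen _ (hF2 x hx x0 hx0)
            exact ⟨z, fun _ => hz⟩
          · exact ⟨0, fun h => absurd h hx⟩
        choose Z hZ using hz
        have hmem : ∀ x ∈ F, ((x.1.1 - x0.1.1, Z x) : ℤ × (Fin n → ℤ)) ∈
            {a : ℤ × (Fin n → ℤ) | nrmS σ P κ nn s α A a ≤ ρ} := by
          intro x hx
          obtain ⟨hxA, hxσ, a, haS, haP⟩ := x.2
          obtain ⟨hyA, hyσ, b, hbS, hbP⟩ := x0.2
          have hprodS := cnt_prod S1 S2 hS0 hsS (Z x)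
          have hquo : SU P (a + -b) (x.1.2 * (x0.1.2)⁻¹) := S1 _ _ _ _ haS (S2 _ _ hbS)
          have hexp : a + -b = fun j => ∑ i, Z x i * α i j := by
            rcases hZ x hx with h5 | h5
            · rw [h5] at hquo
              exact S3 _ _ _ hquo hprodS
            · rw [h5] at hquo
              have h6 := S1 _ _ _ _ hSn hprodS
              rw [zero_add, neg_one_mul] at h6
              exact S3 _ _ _ hquo h6
          have hval : ∀ τ : K →+* ℂ, ‖τ (∏ i, ((s i : Kˣ) : K) ^ (Z x i))‖ =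
              ‖τ (x.1.2 : K)‖ / ‖τ (x0.1.2 : K)‖ := by
            intro τ
            have h5 : ((x.1.2 * (x0.1.2)⁻¹ : Kˣ) : K) = ∏ i, ((s i : Kˣ) : K) ^ (Z x i) ∨
                ((x.1.2 * (x0.1.2)⁻¹ : Kˣ) : K) = -∏ i, ((s i : Kˣ) : K) ^ (Z x i) := by
              rcases hZ x hx with h6 | h6
              · left
                rw [h6, Units.coe_prod]
                refine Finset.prod_congr rfl fun i _ => ?_
                rw [Units.val_zpow_eq_zpow_val]
              · right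
                rw [h6, Units.val_neg, Units.coe_prod]
                congr 1
                refine Finset.prod_congr rfl fun i _ => ?_
                rw [Units.val_zpow_eq_zpow_val]
            have h6 : ‖τ ((x.1.2 * (x0.1.2)⁻¹ : Kˣ) : K)‖ =
                ‖τ (x.1.2 : K)‖ / ‖τ (x0.1.2 : K)‖ := by
              rw [Units.val_mul, Units.val_inv_eq_inv_val, map_mul, map_inv₀, norm_mul, norm_inv]
              rfl
            rw [← h6]
            rcases h5 with h7 | h7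
            · rw [h7]
            · rw [h7, map_neg, norm_neg]
          have hne : ∀ (τ : K →+* ℂ) (u : Kˣ), ‖τ (u : K)‖ ≠ 0 := by
            intro τ u
            rw [norm_ne_zero_iff, Ne, map_eq_zero]
            exact u.ne_zero
          change nrmS σ P κ nn s α A (x.1.1 - x0.1.1, Z x) ≤ ρ
          unfold nrmS
          have hp1 : ∑ k, |Real.log ‖σ k (gelS κ s (x.1.1 - x0.1.1, Z x))‖| ≤ 6 * ρ' := by
            have h5 : ∀ k ∈ Finset.univ, |Real.log ‖σ k (gelS κ s (x.1.1 - x0.1.1, Z x))‖| ≤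
                2 * ρ' := by
              intro k _
              rw [cnt_log (σ k) κ hκ s]
              dsimp only
              rw [hval, Real.log_div (hne _ _) (hne _ _)]
              have h6 : ((x.1.1 - x0.1.1 : ℤ) : ℝ) * Real.log ‖σ k (κ : K)‖ +
                  (Real.log ‖σ k (x.1.2 : K)‖ - Real.log ‖σ k (x0.1.2 : K)‖) =
                  (Real.log ‖σ k (x.1.2 : K)‖ + (x.1.1 : ℝ) * Real.log ‖σ k (κ : K)‖) -
                  (Real.log ‖σ k (x0.1.2 : K)‖ + (x0.1.1 : ℝ) * Real.log ‖σ k (κ : K)‖) := by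
                push_cast
                ring
              rw [h6]
              refine (abs_sub _ _).trans ?_
              have h7 := hxσ (σ k)
              have h8 := hyσ (σ k)
              linarith
            have h6 := Finset.sum_le_sum h5
            rw [Finset.sum_const, Finset.card_univ, Fintype.card_fin, nsmul_eq_mul] at h6
            push_cast at h6
            linarith
          have hp2 : A * |((x.1.1 - x0.1.1 : ℤ) : ℝ)| ≤ 2 * ρ' := by
            have h5 : |((x.1.1 - x0.1.1 : ℤ) : ℝ)| ≤ |(x.1.1 : ℝ)| + |(x0.1.1 : ℝ)| := by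
              push_cast
              exact abs_sub _ _
            have h6 := mul_le_mul_of_nonneg_left h5 (by linarith : (0 : ℝ) ≤ A)
            have h7 : A * (|(x.1.1 : ℝ)| + |(x0.1.1 : ℝ)|) =
                |(x.1.1 : ℝ)| * A + |(x0.1.1 : ℝ)| * A := by ring
            rw [h7] at h6
            linarith
          have hp3 : ∑ j, |(((x.1.1 - x0.1.1) * nn j + ∑ i, Z x i * α i j : ℤ) : ℝ)| *
              Real.log (Ideal.absNorm (P j)) ≤ m * (2 * ρ') := by
            have h5 : ∀ j ∈ Finset.univ, |(((x.1.1 - x0.1.1) * nn j +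
                ∑ i, Z x i * α i j : ℤ) : ℝ)| * Real.log (Ideal.absNorm (P j)) ≤ 2 * ρ' := by
              intro j _
              have h6 : ∑ i, Z x i * α i j = a j - b j := by
                have := congrFun hexp j
                simp only [Pi.add_apply, Pi.neg_apply] at this
                rw [← this]
                ring
              rw [h6]
              have h7 : (((x.1.1 - x0.1.1) * nn j + (a j - b j) : ℤ) : ℝ) =
                  ((a j + x.1.1 * nn j : ℤ) : ℝ) - ((b j + x0.1.1 * nn j : ℤ) : ℝ) := by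
                push_cast
                ring
              rw [h7]
              have h8 := mul_le_mul_of_nonneg_right (abs_sub ((a j + x.1.1 * nn j : ℤ) : ℝ)
                ((b j + x0.1.1 * nn j : ℤ) : ℝ)) (hlogP j)
              have h9 := haP j
              have h10 := hbP j
              rw [add_mul] at h8
              linarith
            have h6 := Finset.sum_le_sum h5
            rw [Finset.sum_const, Finset.card_univ, Fintype.card_fin, nsmul_eq_mul] at h6
            exact h6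
          dsimp only
          rw [← hρρ', hB]
          nlinarith [hp1, hp2, hp3]
        have himg : (F.image (fun x => ((x.1.1 - x0.1.1, Z x) : ℤ × (Fin n → ℤ)))).card ≤
            {a : ℤ × (Fin n → ℤ) | nrmS σ P κ nn s α A a ≤ ρ}.ncard := by
          rw [← Set.ncard_coe_finset]
          apply Set.ncard_le_ncard _ hfinS
          intro a ha
          obtain ⟨x, hx, rfl⟩ := Finset.mem_image.1 ha
          exact hmem x hx
        refine (Finset.card_le_mul_card_image F 2 ?_).trans (Nat.mul_le_mul_left 2 himg)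
        intro a _
        -- the fibres have at most two elements
        have hinj : Set.InjOn (fun x : ↥(TS P κ nn A ρ') => x.1.2)
            (F.filter (fun x => ((x.1.1 - x0.1.1, Z x) : ℤ × (Fin n → ℤ)) = a) : Set _) := by
          intro x hx y hy hxy
          have hx' := (Finset.mem_filter.1 hx).2
          have hy' := (Finset.mem_filter.1 hy).2
          have h5 : x.1.1 - x0.1.1 = y.1.1 - x0.1.1 := by
            rw [← hy'] at hx'
            exact congrArg Prod.fst hx'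
          apply Subtype.ext
          apply Prod.ext
          · linarith
          · exact hxy
        have hmap : (F.filter (fun x => ((x.1.1 - x0.1.1, Z x) : ℤ × (Fin n → ℤ)) = a)).image
            (fun x : ↥(TS P κ nn A ρ') => x.1.2) ⊆
            {(∏ i, s i ^ (a.2 i)) * x0.1.2, (-∏ i, s i ^ (a.2 i)) * x0.1.2} := by
          intro u hu
          obtain ⟨x, hx, rfl⟩ := Finset.mem_image.1 hu
          obtain ⟨hxF, hxa⟩ := Finset.mem_filter.1 hx
          have hZa : Z x = a.2 := congrArg Prod.snd hxa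
          rw [Finset.mem_insert, Finset.mem_singleton]
          rcases hZ x hxF with h5 | h5
          · left
            rw [hZa] at h5
            rw [← h5]
            simp
          · right
            rw [hZa] at h5
            rw [← h5]
            simp
        have h5 := Finset.card_le_card hmap
        rw [Finset.card_image_of_injOn hinj] at h5
        exact h5.trans Finset.card_le_two
    calc q0 * F.card ≤ q0 * (2 * {a : ℤ × (Fin n → ℤ) | nrmS σ P κ nn s α A a ≤ ρ}.ncard) :=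
          Nat.mul_le_mul_left _ hFc
      _ = 2 * q0 * {a : ℤ × (Fin n → ℤ) | nrmS σ P κ nn s α A a ≤ ρ}.ncard := by ring
  -- conclusion
  have hν0 : 0 ≤ ν := le_trans (Nat.cast_nonneg _) hν
  have hprod0 : 0 ≤ ∏ j, Real.log (Ideal.absNorm (P j)) := Finset.prod_nonneg fun j _ => hlogP j
  have hcR : ((TS P κ nn A ρ').ncard : ℝ) ≤
      2 * q0 * ({a : ℤ × (Fin n → ℤ) | nrmS σ P κ nn s α A a ≤ ρ}.ncard : ℝ) := by
    exact_mod_cast hcount
  have hplaces := cnt_places K hK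
  have hBpow : B ^ (Fintype.card (InfinitePlace K) + m) ≤ B ^ (3 + m) :=
    pow_le_pow_right₀ hB1 (by omega)
  set W : ℝ := ν * A * h ^ (Fintype.card (InfinitePlace K) - 1) *
    (∏ j, Real.log (Ideal.absNorm (P j))) with hW
  have hW0 : 0 ≤ W := by
    rw [hW]
    have : 0 ≤ h := by linarith
    have : 0 ≤ A := by linarith
    positivity
  set c : ℝ := ({a : ℤ × (Fin n → ℤ) | nrmS σ P κ nn s α A a ≤ ρ}.ncard : ℝ) with hc
  have hc0 : 0 ≤ c := Nat.cast_nonneg _
  have hq00 : (0 : ℝ) ≤ q0 := Nat.cast_nonneg _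
  calc ρ ^ (Fintype.card (InfinitePlace K) + m) =
      B ^ (Fintype.card (InfinitePlace K) + m) * ρ' ^ (Fintype.card (InfinitePlace K) + m) := by
        rw [← mul_pow, hρρ']
    _ ≤ B ^ (3 + m) * (C2 * W * (2 * q0 * c)) := by
        apply mul_le_mul hBpow _ (by positivity) (by positivity)
        refine hPHS.trans ?_
        have h5 : C2 * ν * A * h ^ (Fintype.card (InfinitePlace K) - 1) *
          (∏ j, Real.log (Ideal.absNorm (P j))) = C2 * W := by
          rw [hW]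
          ring
        rw [h5]
        exact mul_le_mul_of_nonneg_left hcR (by positivity)
    _ = 2 * C2 * B ^ (3 + m) * q0 * W * c := by ring
    _ ≤ C * q0 * W * c := by
        apply mul_le_mul_of_nonneg_right _ hc0
        apply mul_le_mul_of_nonneg_right _ hW0
        apply mul_le_mul_of_nonneg_right _ hq00
        linarith
    _ = _ := by
        rw [hW]
        ring

/-- the explicit constant -/
theorem cn2_num (c : ℝ) (hc : 1 ≤ c) (m : ℕ) :
    c * ((m + 5).factorial : ℝ) + 2 * (100000 * (10 * ((m : ℝ) + 1)) ^ m) *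
      (8 * ((m : ℝ) + 4)) ^ (3 + m) ≤
      (((200 + ⌈c⌉₊ : ℕ) : ℝ) * (m + 1)) ^ ((200 + ⌈c⌉₊) * (m + 1)) := by
  set c1 : ℕ := 200 + ⌈c⌉₊ with hc1
  have hm : (0 : ℝ) ≤ m := Nat.cast_nonneg m
  have hc1' : (200 : ℝ) + c ≤ (c1 : ℝ) := by
    rw [hc1]
    push_cast
    have := Nat.le_ceil c
    linarith
  set x : ℝ := (m : ℝ) + 1 with hx
  have hx1 : 1 ≤ x := by rw [hx]; linarith
  set y : ℝ := (c1 : ℝ) * x with hy
  have hy0 : 200 * x ≤ y := by
    rw [hy]
    exact mul_le_mul_of_nonneg_right (by linarith) (by linarith)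
  have hcy : c ≤ y := by
    have h1 : c ≤ (c1 : ℝ) := by linarith
    have h2 : (c1 : ℝ) ≤ (c1 : ℝ) * x := by
      have h3 : (0 : ℝ) ≤ c1 := Nat.cast_nonneg _
      nlinarith
    linarith
  have hy200 : 200 ≤ y := by linarith
  have hy1 : 1 ≤ y := by linarith
  have hy00 : 0 ≤ y := by linarith
  -- first term
  have t1 : c * ((m + 5).factorial : ℝ) ≤ y ^ (2 * m + 6) := by
    have h1 : ((m + 5).factorial : ℝ) ≤ y ^ (m + 5) := by
      have h2 : ((m + 5).factorial : ℝ) ≤ ((m + 5 : ℕ) : ℝ) ^ (m + 5) := by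
        exact_mod_cast Nat.factorial_le_pow (m + 5)
      refine h2.trans (pow_le_pow_left₀ (Nat.cast_nonneg _) ?_ _)
      push_cast
      have : (m : ℝ) + 5 ≤ 200 * x := by rw [hx]; linarith
      linarith
    calc c * ((m + 5).factorial : ℝ) ≤ y * y ^ (m + 5) :=
          mul_le_mul hcy h1 (Nat.cast_nonneg _) hy00
      _ = y ^ (m + 6) := by rw [← pow_succ']
      _ ≤ y ^ (2 * m + 6) := pow_le_pow_right₀ hy1 (by omega)
  have t2 : 2 * (100000 * (10 * x) ^ m) * (8 * ((m : ℝ) + 4)) ^ (3 + m) ≤ y ^ (2 * m + 6) := by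
    have h1 : (10 * x) ^ m ≤ y ^ m := pow_le_pow_left₀ (by linarith) (by linarith) _
    have h2 : (8 * ((m : ℝ) + 4)) ^ (3 + m) ≤ y ^ (3 + m) := by
      refine pow_le_pow_left₀ (by linarith) ?_ _
      have : 8 * ((m : ℝ) + 4) ≤ 200 * x := by rw [hx]; linarith
      linarith
    have h3 : (200000 : ℝ) ≤ y ^ 3 := by
      calc (200000 : ℝ) ≤ 200 ^ 3 := by norm_num
        _ ≤ y ^ 3 := pow_le_pow_left₀ (by norm_num) hy200 3
    have h4 : 0 ≤ (10 * x) ^ m := by positivity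
    have h5 : 0 ≤ y ^ m := by positivity
    calc 2 * (100000 * (10 * x) ^ m) * (8 * ((m : ℝ) + 4)) ^ (3 + m) =
          (200000 * (10 * x) ^ m) * (8 * ((m : ℝ) + 4)) ^ (3 + m) := by ring
      _ ≤ (y ^ 3 * y ^ m) * y ^ (3 + m) := by
          apply mul_le_mul (mul_le_mul h3 h1 h4 (by positivity)) h2 (by positivity) (by positivity)
      _ = y ^ (2 * m + 6) := by ring
  have t3 : 2 * y ^ (2 * m + 6) ≤ y ^ (c1 * (m + 1)) := by
    calc 2 * y ^ (2 * m + 6) ≤ y * y ^ (2 * m + 6) :=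
          mul_le_mul_of_nonneg_right (by linarith) (by positivity)
      _ = y ^ (2 * m + 7) := by rw [← pow_succ']
      _ ≤ y ^ (c1 * (m + 1)) := pow_le_pow_right₀ hy1 (by
          have : 200 * (m + 1) ≤ c1 * (m + 1) := Nat.mul_le_mul_right _ (by omega)
          omega)
  linarith

theorem st_CN2 (h1 : ST_SB2) (h2 : ST_PH2) (_h3 : ST_GEL1) (h4 : ST_SUF) : ST_CN2 := by
  obtain ⟨c, hc, H⟩ := h1
  refine ⟨200 + ⌈c⌉₊, by omega, ?_⟩
  rintro m C rfl
  refine cn2_main h4 m (c * ((m + 5).factorial : ℝ)) (100000 * (10 * ((m : ℝ) + 1)) ^ m) _ ?_ ?_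
    (cn2_num c hc m) (H m _ rfl) (h2 m _ rfl)
  · have : (1 : ℝ) ≤ ((m + 5).factorial : ℝ) := by exact_mod_cast Nat.one_le_iff_ne_zero.mpr (Nat.factorial_ne_zero _)
    nlinarith
  · have : (1 : ℝ) ≤ (10 * ((m : ℝ) + 1)) ^ m := by
      apply one_le_pow₀
      have : (0 : ℝ) ≤ m := Nat.cast_nonneg m
      linarith
    linarith

end Pool.Helper99.SZ
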