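import Pool.Agent.Helper99.SZ.Stmts2
import Pool.Agent.Helper47.Trs.Zero
import Pool.Agent.Helper47.Trs.Tdim
import Pool.Agent.Helper37.PiE.ZFinal

/-!
# The counting lemma for isolated primes with the sharp factorial
-/

set_option autoImplicit false

namespace Pool.Helper99.SZ

open MvPolynomial Trs Trs.Z
open scoped Classical

theorem st_COR : ST_COR := by
  intro n c I hI d hd T _ q hinj hp hh hInd V hmin hdeg
  by_cases hT : Nonempty T
  swap
  · rw [not_nonempty_iff] at hT
    simp
  have hBas : ∀ t, Bas (q t) I := fun t => by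
    obtain ⟨I', hII', hI'⟩ := Pool.Agent.Helper37.PiE.exists_bas (q t) (hInd t)
    have h1 := tdim n (q t) (hp t) I' hI'
    rw [hh t] at h1
    have h2 : c + I'.card = n := by exact_mod_cast h1
    have h3 : I = I' := Finset.eq_of_subset_of_card_le hII' (by omega)
    rwa [h3]
  have hAlg : ∀ t, ∀ j, j ∉ I → ∃ U : Rg n, U ≠ 0 ∧ U.vars ⊆ insert j I ∧ U ∈ q t := by
    intro t j hj
    have h1 := (hBas t).2 j hj
    rw [Ind] at h1
    push Not at h1
    obtain ⟨f, hf1, hf2, hf3⟩ := h1
    refine ⟨f, hf3, ?_, hf2⟩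
    intro x hx
    have := hf1 hx
    rw [Finset.mem_insert] at this ⊢
    exact this
  have hdeg' : ∀ f ∈ (V : Set (Rg n)), ∀ i, f.degreeOf i ≤ d i := fun f hf => hdeg f hf
  have h1 := Pool.Agent.Helper37.PiE.core_main (r := 0) (s := c) (T' := 0 + 1) (by omega)
    (fun _ => false) I (by omega) d hd q hinj hp
    hInd hAlg (fun _ => Fin.elim0) (fun t => ⟨Fin.elim0, fun i => i.elim0, by
      rw [Matrix.det_fin_zero]
      intro h
      exact (hp t).ne_top ((Ideal.eq_top_iff_one _).2 h)⟩) V hdeg' hmin (fun t f hf l _ => by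
      rcases l with _ | ⟨a, _⟩
      · exact (hmin t).1.2 (Ideal.subset_span hf)
      · exact a.elim0)
  rw [pow_zero, mul_one, zero_add] at h1
  refine h1.trans (le_of_eq ?_)
  congr 1

end Pool.Helper99.SZ
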