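import Mathlib
import Pool.Agent.Helper99.SZ.Stmts

/-!
Module GEL2 of the crew project on MP_bde085_nt: denominators of `κ ^ k ∏ s_i ^ z_i`.
-/

set_option autoImplicit false

namespace Pool.Helper99.SZ

open NumberField

section

variable {K : Type} [Field K] [NumberField K]


theorem gel2_zpow (x : K) (k : ℤ) :
    FractionalIdeal.spanSingleton (nonZeroDivisors (𝓞 K)) (x ^ k) =
      (FractionalIdeal.spanSingleton (nonZeroDivisors (𝓞 K)) x) ^ k := by
  cases k with
  | ofNat n =>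
    rw [Int.ofNat_eq_natCast, zpow_natCast, zpow_natCast, FractionalIdeal.spanSingleton_pow]
  | negSucc n =>
    rw [zpow_negSucc, zpow_negSucc, ← FractionalIdeal.spanSingleton_inv,
      FractionalIdeal.spanSingleton_pow]

theorem gel2_prod {ι : Type} (t : Finset ι) (f : ι → K) :
    FractionalIdeal.spanSingleton (nonZeroDivisors (𝓞 K)) (∏ i ∈ t, f i) =
      ∏ i ∈ t, FractionalIdeal.spanSingleton (nonZeroDivisors (𝓞 K)) (f i) := by
  classical
  induction t using Finset.induction_on with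
  | empty => simp
  | insert a t ha ih =>
    rw [Finset.prod_insert ha, Finset.prod_insert ha, ← ih,
      FractionalIdeal.spanSingleton_mul_spanSingleton]

theorem gel2_int (x : K) (q : ℕ) (J : Ideal (𝓞 K)) (hq : ((q : ℕ) : 𝓞 K) ∈ J)
    (h : (J : FractionalIdeal (nonZeroDivisors (𝓞 K)) K) *
      FractionalIdeal.spanSingleton (nonZeroDivisors (𝓞 K)) x ≤ 1) :
    IsIntegral ℤ ((q : K) * x) := by
  have h1 : FractionalIdeal.spanSingleton (nonZeroDivisors (𝓞 K)) (q : K) ≤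
      (J : FractionalIdeal (nonZeroDivisors (𝓞 K)) K) := by
    rw [FractionalIdeal.spanSingleton_le_iff_mem, FractionalIdeal.mem_coeIdeal]
    exact ⟨(q : 𝓞 K), hq, by simp⟩
  have h2 : FractionalIdeal.spanSingleton (nonZeroDivisors (𝓞 K)) ((q : K) * x) ≤ 1 := by
    rw [← FractionalIdeal.spanSingleton_mul_spanSingleton]
    exact le_trans (mul_le_mul' h1 le_rfl) h
  rw [FractionalIdeal.spanSingleton_le_iff_mem, FractionalIdeal.mem_one_iff] at h2
  obtain ⟨y, hy⟩ := h2
  rw [← hy]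
  exact RingOfIntegers.isIntegral_coe y

/-- `I ^ |k| * I ^ k ≤ 1` -/
theorem gel2_le (I : Ideal (𝓞 K)) (hI : I ≠ ⊥) (k : ℤ) :
    ((I ^ k.natAbs : Ideal (𝓞 K)) : FractionalIdeal (nonZeroDivisors (𝓞 K)) K) *
      (I : FractionalIdeal (nonZeroDivisors (𝓞 K)) K) ^ k ≤ 1 := by
  have hI' : (I : FractionalIdeal (nonZeroDivisors (𝓞 K)) K) ≠ 0 :=
    FractionalIdeal.coeIdeal_ne_zero.mpr hI
  rw [FractionalIdeal.coeIdeal_pow, ← zpow_natCast, ← zpow_add₀ hI']
  have h : ((k.natAbs : ℤ) + k) = (((k.natAbs : ℤ) + k).toNat : ℤ) := by omega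
  rw [h, zpow_natCast, ← FractionalIdeal.coeIdeal_pow]
  exact FractionalIdeal.coeIdeal_le_one

theorem gel2_main (𝔞 : Ideal (𝓞 K)) (h𝔞 : 𝔞 ≠ ⊥) {m : ℕ} (P : Fin m → Ideal (𝓞 K))
    (hP : ∀ j, P j ≠ ⊥) (k : ℤ) (b : Fin m → ℤ) (x : K)
    (hx : FractionalIdeal.spanSingleton (nonZeroDivisors (𝓞 K)) x =
      (𝔞 : FractionalIdeal (nonZeroDivisors (𝓞 K)) K) ^ k *
        ∏ j, (P j : FractionalIdeal (nonZeroDivisors (𝓞 K)) K) ^ (b j)) :
    IsIntegral ℤ (((Ideal.absNorm 𝔞 ^ k.natAbs *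
      ∏ j, Ideal.absNorm (P j) ^ (b j).natAbs : ℕ) : K) * x) := by
  apply gel2_int x _ (𝔞 ^ k.natAbs * ∏ j, P j ^ (b j).natAbs)
  · push_cast
    apply Ideal.mul_mem_mul
    · exact Ideal.pow_mem_pow (Ideal.absNorm_mem 𝔞) _
    · apply Ideal.prod_mem_prod
      intro j _
      exact Ideal.pow_mem_pow (Ideal.absNorm_mem (P j)) _
  · rw [hx, FractionalIdeal.coeIdeal_mul, mul_mul_mul_comm]
    have h1 := gel2_le 𝔞 h𝔞 k
    have h2 : ((∏ j, P j ^ (b j).natAbs : Ideal (𝓞 K)) :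
        FractionalIdeal (nonZeroDivisors (𝓞 K)) K) *
        ∏ j, (P j : FractionalIdeal (nonZeroDivisors (𝓞 K)) K) ^ (b j) ≤ 1 := by
      have h3 : ∀ t : Finset (Fin m), ((∏ j ∈ t, P j ^ (b j).natAbs : Ideal (𝓞 K)) :
        FractionalIdeal (nonZeroDivisors (𝓞 K)) K) *
        ∏ j ∈ t, (P j : FractionalIdeal (nonZeroDivisors (𝓞 K)) K) ^ (b j) ≤ 1 := by
        intro t
        induction t using Finset.induction_on with
        | empty => simp
        | insert a t ha ih =>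
          rw [Finset.prod_insert ha, Finset.prod_insert ha, FractionalIdeal.coeIdeal_mul,
            mul_mul_mul_comm]
          calc _ ≤ (1 : FractionalIdeal (nonZeroDivisors (𝓞 K)) K) * 1 :=
              mul_le_mul' (gel2_le (P a) (hP a) (b a)) ih
            _ = 1 := one_mul 1
      exact h3 Finset.univ
    calc _ ≤ (1 : FractionalIdeal (nonZeroDivisors (𝓞 K)) K) * 1 :=
        mul_le_mul' h1 h2
      _ = 1 := one_mul 1

end

theorem st_GEL2 (_hSUF : ST_SUF) : ST_GEL2 := by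
  intro K _ _ κ hκ m n s P hPi hP nn 𝔞 hfac α hα a q hq
  have hP' : ∀ j, P j ≠ ⊥ := fun j => (hP j).2
  have h𝔞 : 𝔞 ≠ ⊥ := by
    intro h
    rw [h, Ideal.bot_mul, Ideal.span_singleton_eq_bot] at hfac
    exact hκ hfac
  have h𝔞' : (𝔞 : FractionalIdeal (nonZeroDivisors (𝓞 K)) K) ≠ 0 :=
    FractionalIdeal.coeIdeal_ne_zero.mpr h𝔞
  have hP'' : ∀ j, (P j : FractionalIdeal (nonZeroDivisors (𝓞 K)) K) ≠ 0 :=
    fun j => FractionalIdeal.coeIdeal_ne_zero.mpr (hP' j)
  have hκs : FractionalIdeal.spanSingleton (nonZeroDivisors (𝓞 K)) (κ : K) =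
      (𝔞 : FractionalIdeal (nonZeroDivisors (𝓞 K)) K) *
        ∏ j, (P j : FractionalIdeal (nonZeroDivisors (𝓞 K)) K) ^ ((nn j : ℕ) : ℤ) := by
    have h1 := congrArg (fun I : Ideal (𝓞 K) =>
      (I : FractionalIdeal (nonZeroDivisors (𝓞 K)) K)) hfac
    simp only [FractionalIdeal.coeIdeal_span_singleton, FractionalIdeal.coeIdeal_mul] at h1
    rw [h1]
    simp only [zpow_natCast]
    congr 1
    have h4 : ∀ t : Finset (Fin m), ((∏ j ∈ t, P j ^ nn j : Ideal (𝓞 K)) :
        FractionalIdeal (nonZeroDivisors (𝓞 K)) K) =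
        ∏ j ∈ t, (P j : FractionalIdeal (nonZeroDivisors (𝓞 K)) K) ^ nn j := by
      intro t
      induction t using Finset.induction_on with
      | empty => simp
      | insert a t ha ih =>
        rw [Finset.prod_insert ha, Finset.prod_insert ha, FractionalIdeal.coeIdeal_mul, ih,
          FractionalIdeal.coeIdeal_pow]
    exact h4 Finset.univ
  have hgel : FractionalIdeal.spanSingleton (nonZeroDivisors (𝓞 K)) (gelS κ s a) =
      (𝔞 : FractionalIdeal (nonZeroDivisors (𝓞 K)) K) ^ a.1 *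
        ∏ j, (P j : FractionalIdeal (nonZeroDivisors (𝓞 K)) K) ^
          (a.1 * nn j + ∑ i, a.2 i * α i j) := by
    unfold gelS
    rw [← FractionalIdeal.spanSingleton_mul_spanSingleton, gel2_zpow, hκs, gel2_prod, mul_zpow]
    have h2 : ∀ i, FractionalIdeal.spanSingleton (nonZeroDivisors (𝓞 K))
        (((s i : Kˣ) : K) ^ a.2 i) =
        ∏ j, (P j : FractionalIdeal (nonZeroDivisors (𝓞 K)) K) ^ (a.2 i * α i j) := by
      intro i
      rw [gel2_zpow]
      have h3 := hα i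
      unfold SU at h3
      rw [h3, ← Finset.prod_zpow]
      apply Finset.prod_congr rfl
      intro j _
      rw [← zpow_mul, mul_comm]
    rw [Finset.prod_congr rfl (fun i _ => h2 i), Finset.prod_comm, mul_assoc]
    congr 1
    rw [← Finset.prod_zpow, ← Finset.prod_mul_distrib]
    apply Finset.prod_congr rfl
    intro j _
    rw [zpow_add₀ (hP'' j), ← zpow_mul, mul_comm ((nn j : ℕ) : ℤ) a.1]
    congr 1
    have h5 : ∀ t : Finset (Fin n), ∏ i ∈ t,
        (P j : FractionalIdeal (nonZeroDivisors (𝓞 K)) K) ^ (a.2 i * α i j) =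
        (P j : FractionalIdeal (nonZeroDivisors (𝓞 K)) K) ^ (∑ i ∈ t, a.2 i * α i j) := by
      intro t
      induction t using Finset.induction_on with
      | empty => simp
      | insert b t hb ih =>
        rw [Finset.prod_insert hb, Finset.sum_insert hb, ih, zpow_add₀ (hP'' j)]
    exact h5 Finset.univ
  refine ⟨?_, ?_, ?_⟩
  · rw [hq]
    apply Nat.mul_pos
    · apply Nat.pow_pos
      exact Nat.pos_of_ne_zero (fun h => h𝔞 (Ideal.absNorm_eq_zero_iff.mp h))
    · apply Finset.prod_pos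
      intro j _
      apply Nat.pow_pos
      exact Nat.pos_of_ne_zero (fun h => hP' j (Ideal.absNorm_eq_zero_iff.mp h))
  · rw [hq]
    exact gel2_main 𝔞 h𝔞 P hP' a.1 _ _ hgel
  · have hinv : FractionalIdeal.spanSingleton (nonZeroDivisors (𝓞 K)) (gelS κ s a)⁻¹ =
      (𝔞 : FractionalIdeal (nonZeroDivisors (𝓞 K)) K) ^ (-a.1) *
        ∏ j, (P j : FractionalIdeal (nonZeroDivisors (𝓞 K)) K) ^
          (-(a.1 * nn j + ∑ i, a.2 i * α i j)) := by
      rw [← FractionalIdeal.spanSingleton_inv, hgel, mul_inv, zpow_neg, ← Finset.prod_inv_distrib]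
      simp only [zpow_neg]
    have h1 := gel2_main 𝔞 h𝔞 P hP' (-a.1) _ _ hinv
    rw [hq]
    simp only [Int.natAbs_neg] at h1
    exact h1

end Pool.Helper99.SZ
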