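import Mathlib
import Pool.Agent.Helper99.SZ.Stmts3

/-!
Module KN3 of the crew project on MP_bde085_nt: the ratio of two conjugates of `κ` is not a
root of unity.
-/

set_option autoImplicit false

namespace Pool.Helper99.SZ

open NumberField

theorem kn3_int (K : Type) [Field K] [NumberField K] (a : 𝓞 K) (q : ℚ)
    (h : (a : K) = algebraMap ℚ K q) : ∃ n : ℤ, a = (n : 𝓞 K) := by
  have h1 : IsIntegral ℤ (algebraMap ℚ K q) := by
    rw [← h]
    exact a.2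
  have h2 : IsIntegral ℤ q := (isIntegral_algebraMap_iff (algebraMap ℚ K).injective).1 h1
  obtain ⟨n, hn⟩ := IsIntegrallyClosed.isIntegral_iff.mp h2
  refine ⟨n, ?_⟩
  apply RingOfIntegers.coe_injective
  refine h.trans ?_
  rw [← hn]
  simp

theorem kn3_nat {F : Type} [Field F] (x : F) (k : ℤ) (hk : k ≠ 0) (h : x ^ k = 1) :
    x ^ k.natAbs = 1 ∧ k.natAbs ≠ 0 := by
  refine ⟨?_, Int.natAbs_ne_zero.2 hk⟩
  rcases Int.natAbs_eq k with h1 | h1
  · rw [← zpow_natCast, ← h1]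
    exact h
  · have h2 : x ^ (-((k.natAbs : ℕ) : ℤ)) = 1 := by
      rw [← h1]
      exact h
    rw [zpow_neg, inv_eq_one, zpow_natCast] at h2
    exact h2

theorem st_KN3 (hKER : BK.ST_KER) : ST_KN3 := by
  intro K _ _ β a b c κ m p P 𝔞 hcd L _ _ e he j0 k hk0 hk
  obtain ⟨h12, hN⟩ := kn3_nat _ k hk0 hk
  generalize k.natAbs = N at h12 hN
  have hd : e 1 (κ : K) ≠ 0 := by
    intro h0
    rw [h0, div_zero, zero_pow hN] at h12
    exact zero_ne_one h12
  rw [div_pow, div_eq_one_iff_eq (pow_ne_zero N hd)] at h12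
  obtain ⟨φ⟩ : Nonempty (L →+* ℂ) := inferInstance
  have hne : φ.comp (e 2) ≠ φ.comp (e 1) := by
    intro h
    have h1 : e 2 = e 1 := by
      ext x
      have h2 := RingHom.congr_fun h x
      exact φ.injective h2
    have h3 : (2 : Fin 3) = 1 := he h1
    exact absurd h3 (by decide)
  obtain ⟨q, hq⟩ := (hKER K hcd.cf.deg _ _ hne).1 ((κ : K) ^ N) (by
    rw [RingHom.comp_apply, RingHom.comp_apply, map_pow (e 2), map_pow (e 1), h12])
  obtain ⟨n, hn⟩ := kn3_int K (κ ^ N) q (by rw [← hq]; exact map_pow (algebraMap (𝓞 K) K) _ N)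
  have hPpr := (hcd.pr j0).1
  have hN0 : 0 < N := Nat.pos_of_ne_zero hN
  have hnP : ((n : ℤ) : 𝓞 K) ∈ P j0 := by
    rw [← hn]
    exact Ideal.pow_mem_of_mem _ (hcd.km j0) N hN0
  have hpn : ((p j0 : ℕ) : ℤ) ∣ n := by
    by_contra hnd
    have hcop : IsCoprime n ((p j0 : ℕ) : ℤ) := by
      have h1 := (Prime.coprime_iff_not_dvd (Nat.prime_iff_prime_int.mp (hcd.pp j0))).mpr hnd
      exact h1.symm
    obtain ⟨u, v, huv⟩ := hcop
    apply hPpr.ne_top
    rw [Ideal.eq_top_iff_one]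
    have h2 : (u : 𝓞 K) * (n : 𝓞 K) + (v : 𝓞 K) * ((p j0 : ℕ) : 𝓞 K) = 1 := by
      exact_mod_cast congrArg (fun z : ℤ => (z : 𝓞 K)) huv
    rw [← h2]
    exact (P j0).add_mem ((P j0).mul_mem_left _ hnP) ((P j0).mul_mem_left _ (hcd.pm j0))
  obtain ⟨Q, hQ, hpQ, hQP⟩ := hcd.oth j0
  apply hQP
  refine hcd.uni j0 Q hQ hpQ ?_
  have h3 : κ ^ N ∈ Q := by
    rw [hn]
    obtain ⟨k, hk⟩ := hpn
    rw [hk]
    push_cast
    exact Q.mul_mem_right _ hpQ
  exact hQ.mem_of_pow_mem N h3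

end Pool.Helper99.SZ
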