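import Mathlib
import Pool.Agent.Helper99.SZ.Stmts4

/-! The two embeddings of a quadratic field. -/

set_option autoImplicit false

namespace Pool.Helper99.SZ

open NumberField

theorem qem_bij (K : Type) [Field K] [NumberField K] (h2 : Module.finrank ℚ K = 2)
    (σ : Fin 2 → (K →+* ℂ)) (hσ : Function.Injective σ) : Function.Bijective σ := by
  rw [Fintype.bijective_iff_injective_and_card]
  refine ⟨hσ, ?_⟩
  rw [Embeddings.card K ℂ, h2, Fintype.card_fin]

theorem qem_norm (K : Type) [Field K] [NumberField K] (h2 : Module.finrank ℚ K = 2)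
    (σ : Fin 2 → (K →+* ℂ)) (hσ : Function.Injective σ) (x : 𝓞 K) :
    ∏ i, ‖σ i (x : K)‖ = |(Algebra.norm ℤ x : ℝ)| := by
  have h1 : ∏ i, ‖σ i (x : K)‖ = ∏ φ : K →+* ℂ, ‖φ (x : K)‖ :=
    Fintype.prod_bijective σ (qem_bij K h2 σ hσ) _ _ (fun i => rfl)
  have h3 : ∏ φ : K →+* ℂ, ‖φ (x : K)‖ = ∏ φ : K →ₐ[ℚ] ℂ, ‖φ (x : K)‖ :=
    Fintype.prod_equiv (RingHom.equivRatAlgHom K ℂ) (fun f => ‖f (x : K)‖)
      (fun φ => ‖φ (x : K)‖) fun _ => by simp [RingHom.equivRatAlgHom_apply]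
  rw [h1, h3, ← norm_prod, ← Algebra.norm_eq_prod_embeddings ℚ ℂ (x : K)]
  have h4 : ((Algebra.norm ℤ x : ℤ) : ℚ) = Algebra.norm ℚ (x : K) := Algebra.coe_norm_int x
  rw [← h4, eq_ratCast, Rat.cast_intCast, Complex.norm_intCast]

theorem st_QEM : ST_QEM := by
  intro K _ _ τ β a b hQ
  obtain ⟨φ⟩ : Nonempty (K →+* ℂ) := inferInstance
  have hinj : Function.Injective (![φ, φ.comp τ] : Fin 2 → (K →+* ℂ)) := by
    have hne : φ ≠ φ.comp τ := by
      intro h
      have h1 := congrArg (fun f : K →+* ℂ => f (β : K)) h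
      exact hQ.ne (φ.injective h1).symm
    intro i j hij
    fin_cases i <;> fin_cases j
    · rfl
    · exact absurd hij hne
    · exact absurd hij.symm hne
    · rfl
  have hall : ∀ ψ : K →+* ℂ, ∃ i, ψ = (![φ, φ.comp τ] : Fin 2 → (K →+* ℂ)) i := by
    intro ψ
    obtain ⟨i, hi⟩ := (qem_bij K hQ.deg _ hinj).2 ψ
    exact ⟨i, hi.symm⟩
  refine ⟨![φ, φ.comp τ], hinj, fun x => rfl, ?_, hall, qem_norm K hQ.deg _ hinj, ?_⟩
  · intro x
    show φ (τ (τ x)) = φ x
    rw [hQ.inv]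
  · obtain ⟨i, hi⟩ := hall ((starRingEnd ℂ).comp φ)
    fin_cases i
    · left
      have h0 : ∀ x, (φ x).im = 0 := by
        intro x
        have := congrArg (fun f : K →+* ℂ => f x) hi
        exact Complex.conj_eq_iff_im.1 this
      intro i x
      fin_cases i
      · exact h0 x
      · exact h0 (τ x)
    · right
      intro x
      exact (congrArg (fun f : K →+* ℂ => f x) hi).symm

end Pool.Helper99.SZ
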