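import Mathlib
import Pool.Agent.Helper99.SZ.Stmts4

/-! A root of unity `β / τ β` in a quadratic field. -/

set_option autoImplicit false

namespace Pool.Helper99.SZ

open NumberField

theorem qro_int {K : Type} [Field K] [NumberField K] {ζ : K} {n : ℕ} (hn : 0 < n)
    (h : ζ ^ n = 1) : IsIntegral ℤ ζ := by
  refine ⟨Polynomial.X ^ n - Polynomial.C 1, Polynomial.monic_X_pow_sub_C 1 hn.ne', ?_⟩
  rw [Polynomial.eval₂_sub, Polynomial.eval₂_X_pow, Polynomial.eval₂_C, h, map_one, sub_self]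

theorem st_QRO : ST_QRO := by
  intro K _ _ τ β a b hQ k hk hζk
  have hb : (b : K) ≠ 0 := by exact_mod_cast hQ.b0
  have hβ : (β : K) ≠ 0 := by
    intro h
    have := hQ.mul
    rw [h, zero_mul] at this
    exact hb this.symm
  have hτβ : τ (β : K) ≠ 0 := by
    intro h
    have := hQ.mul
    rw [h, mul_zero] at this
    exact hb this.symm
  set ζ : K := (β : K) / τ (β : K) with hζ
  have hζ0 : ζ ≠ 0 := div_ne_zero hβ hτβ
  have hn : 0 < k.natAbs := Int.natAbs_pos.2 hk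
  have hζn : ζ ^ k.natAbs = 1 := by
    rcases Int.natAbs_eq k with h | h
    · rw [h, zpow_natCast] at hζk
      simpa using hζk
    · rw [h, zpow_neg, zpow_natCast, inv_eq_one] at hζk
      simpa using hζk
  have hζi : ζ⁻¹ ^ k.natAbs = 1 := by rw [inv_pow, hζn, inv_one]
  have hτζ : τ ζ = ζ⁻¹ := by
    rw [hζ, map_div₀, hQ.inv, inv_div]
  have hτζ' : τ ζ⁻¹ = ζ := by
    rw [map_inv₀, hτζ, inv_inv]
  obtain ⟨q, hq⟩ := hQ.fix (ζ + ζ⁻¹) (by rw [map_add, hτζ, hτζ', add_comm])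
  have hint : IsIntegral ℤ (algebraMap ℚ K q) := by
    rw [← hq]
    exact (qro_int hn hζn).add (qro_int hn hζi)
  have hintq : IsIntegral ℤ q :=
    (isIntegral_algebraMap_iff (algebraMap ℚ K).injective).1 hint
  obtain ⟨m, hm⟩ := IsIntegrallyClosed.isIntegral_iff.1 hintq
  have hs : ζ + ζ⁻¹ = (m : K) := by
    rw [hq, ← hm]
    simp
  -- bound
  obtain ⟨φ⟩ : Nonempty (K →+* ℂ) := inferInstance
  have hφ : ‖φ ζ‖ = 1 := by
    refine Complex.norm_eq_one_of_pow_eq_one (n := k.natAbs) ?_ hn.ne'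
    rw [← map_pow, hζn, map_one]
  have hm2 : |(m : ℝ)| ≤ 2 := by
    have h1 : φ (ζ + ζ⁻¹) = (m : ℂ) := by rw [hs, map_intCast]
    have h2 : ‖φ (ζ + ζ⁻¹)‖ ≤ 2 := by
      rw [map_add, map_inv₀]
      refine (norm_add_le _ _).trans ?_
      rw [norm_inv, hφ]
      norm_num
    rw [h1, Complex.norm_intCast] at h2
    exact h2
  have hm3 : |m| ≤ 2 := by exact_mod_cast hm2
  -- the relation
  have e1 : (b : K) * (ζ + ζ⁻¹ + 2) = (a : K) ^ 2 := by
    have h1 : (a : K) ^ 2 = ((β : K) + τ (β : K)) ^ 2 := by rw [hQ.add]; ring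
    rw [h1, ← hQ.mul, hζ]
    field_simp
    ring
  rw [hs] at e1
  have e2 : b * (m + 2) = a ^ 2 := by exact_mod_cast e1
  have hd : a ^ 2 - 4 * b ≠ 0 := by
    intro h
    have h1 : ((β : K) - τ (β : K)) ^ 2 = ((a ^ 2 - 4 * b : ℤ) : K) := by
      have h2 : ((β : K) - τ (β : K)) ^ 2 = ((β : K) + τ (β : K)) ^ 2 -
        4 * ((β : K) * τ (β : K)) := by ring
      rw [h2, hQ.add, hQ.mul]
      push_cast
      ring
    rw [h, Int.cast_zero] at h1
    have h3 := pow_eq_zero_iff (n := 2) (by norm_num) |>.1 h1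
    exact hQ.ne (sub_eq_zero.1 h3).symm
  have e3 : a ^ 2 - 4 * b = b * (m - 2) := by rw [← e2]; ring
  refine ⟨m - 2, ?_, ?_, e3⟩
  · have h1 : m - 2 ≠ 0 := by
      intro h
      rw [e3, h, mul_zero] at hd
      exact hd rfl
    exact Int.one_le_abs h1
  · rw [abs_le] at hm3 ⊢
    constructor <;> linarith [hm3.1, hm3.2]

end Pool.Helper99.SZ
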