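import Mathlib
import Pool.Agent.Helper99.SZ.Stmts4

/-! Units of quadratic fields. -/

set_option autoImplicit false

namespace Pool.Helper99.SZ

open NumberField

theorem qub_cyc {K : Type} [Field K] [CharZero K] {u : K} {t : ℤ} (ht : |t| ≤ 2)
    (h : u ^ 2 - (t : K) * u + 1 = 0) : u ^ 12 = 1 := by
  rw [abs_le] at ht
  obtain ⟨h1, h2⟩ := ht
  interval_cases t
  · have h3 : (u + 1) ^ 2 = 0 := by push_cast at h; linear_combination h
    have h4 : u = -1 := eq_neg_of_add_eq_zero_left (pow_eq_zero_iff (n := 2) (by norm_num) |>.1 h3)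
    rw [h4]; ring
  · have h3 : u ^ 2 = -u - 1 := by push_cast at h; linear_combination h
    have h4 : u ^ 3 = 1 := by
      have : u ^ 3 = u * u ^ 2 := by ring
      rw [this, h3]
      linear_combination -h3
    have : u ^ 12 = (u ^ 3) ^ 4 := by ring
    rw [this, h4]; ring
  · have h3 : u ^ 2 = -1 := by push_cast at h; linear_combination h
    have : u ^ 12 = (u ^ 2) ^ 6 := by ring
    rw [this, h3]; ring
  · have h3 : u ^ 2 = u - 1 := by push_cast at h; linear_combination h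
    have h4 : u ^ 3 = -1 := by
      have : u ^ 3 = u * u ^ 2 := by ring
      rw [this, h3]
      linear_combination h3
    have : u ^ 12 = (u ^ 3) ^ 4 := by ring
    rw [this, h4]; ring
  · have h3 : (u - 1) ^ 2 = 0 := by push_cast at h; linear_combination h
    have h4 : u = 1 := sub_eq_zero.1 (pow_eq_zero_iff (n := 2) (by norm_num) |>.1 h3)
    rw [h4]; ring

/-- a root of `X² - t X - 1`, `t ≠ 0`, is not close to the unit circle -/
theorem qub_real {r : ℂ} {t : ℤ} (ht : t ≠ 0) (h : r ^ 2 - (t : ℂ) * r - 1 = 0)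
    (h1 : 99 / 100 < ‖r‖) (h2 : ‖r‖ < 102 / 100) : False := by
  have hre := congrArg Complex.re h
  have him := congrArg Complex.im h
  have e1 : (r ^ 2 - (t : ℂ) * r - 1).re = r.re ^ 2 - r.im ^ 2 - t * r.re - 1 := by
    simp [pow_two]
  have e2 : (r ^ 2 - (t : ℂ) * r - 1).im = 2 * r.re * r.im - t * r.im := by
    simp [pow_two]
    ring
  rw [e1, Complex.zero_re] at hre
  rw [e2, Complex.zero_im] at him
  have hn : ‖r‖ ^ 2 = r.re ^ 2 + r.im ^ 2 := by
    rw [← Complex.normSq_eq_norm_sq, Complex.normSq_apply]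
    ring
  have ht1 : (1 : ℝ) ≤ (t : ℝ) ^ 2 := by
    have : (1 : ℤ) ≤ t ^ 2 := by
      have : 0 < t ^ 2 := by positivity
      omega
    exact_mod_cast this
  have him' : r.im * (2 * r.re - t) = 0 := by linarith
  rcases mul_eq_zero.1 him' with h3 | h3
  · rw [h3] at hre hn
    have h4 : (t : ℝ) * r.re = r.re ^ 2 - 1 := by linarith
    have h5 : (t : ℝ) ^ 2 * r.re ^ 2 = (r.re ^ 2 - 1) ^ 2 := by rw [← h4]; ring
    have h6 : r.re ^ 2 = ‖r‖ ^ 2 := by rw [hn]; ring
    rw [h6] at h5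
    have h7 : 9 / 10 < ‖r‖ ^ 2 := by nlinarith
    have h8 : ‖r‖ ^ 2 < 11 / 10 := by nlinarith [norm_nonneg r]
    nlinarith
  · have h4 : r.re = t / 2 := by linarith
    rw [h4] at hre
    nlinarith [sq_nonneg r.im]

theorem qub_exp {x : ℝ} (hx : 0 < x) (h : |Real.log x| < 1 / 100) :
    99 / 100 < x ∧ x < 102 / 100 := by
  rw [abs_lt] at h
  have h1 : Real.exp (-(1 / 100)) < x := (Real.lt_log_iff_exp_lt hx).1 h.1
  have h2 : x < Real.exp (1 / 100) := (Real.log_lt_iff_lt_exp hx).1 h.2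
  have h3 := Real.add_one_le_exp (-(1 / 100 : ℝ))
  have h4 : Real.exp (1 / 100) * Real.exp (-(1 / 100)) = 1 := by
    rw [← Real.exp_add]; simp
  have h5 : 0 < Real.exp (1 / 100) := Real.exp_pos _
  constructor
  · linarith
  · nlinarith

theorem st_QUB : ST_QUB := by
  refine ⟨1 / 100, by norm_num, ?_⟩
  intro K _ _ h2 u hu
  by_contra hne
  push Not at hne
  apply hu
  -- the two embeddings
  have hcard : Fintype.card (K →ₐ[ℚ] ℂ) = 2 := by rw [AlgHom.card, h2]
  obtain ⟨e⟩ : Nonempty (Fin 2 ≃ (K →ₐ[ℚ] ℂ)) := by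
    refine ⟨(Fintype.equivFinOfCardEq hcard).symm⟩
  set x : K := ((u : 𝓞 K) : K) with hx
  have hx0 : x ≠ 0 := by
    rw [hx]
    intro h
    have : (u : 𝓞 K) = 0 := by exact_mod_cast h
    exact u.ne_zero this
  set r : Fin 2 → ℂ := fun i => e i x with hr
  have hr0 : ∀ i, 0 < ‖r i‖ := fun i => norm_pos_iff.2 (by
    rw [hr]
    intro h
    exact hx0 ((map_eq_zero (e i).toRingHom).1 h))
  have hb : ∀ i, 99 / 100 < ‖r i‖ ∧ ‖r i‖ < 102 / 100 := fun i =>
    qub_exp (hr0 i) (hne (e i).toRingHom)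
  -- trace and norm
  have htr : r 0 + r 1 = ((Algebra.trace ℤ (𝓞 K) (u : 𝓞 K) : ℤ) : ℂ) := by
    have h3 : ∑ σ : K →ₐ[ℚ] ℂ, σ x = ∑ i, r i := by
      rw [← Equiv.sum_comp e]
    have h4 := trace_eq_sum_embeddings ℂ (K := ℚ) (x := x)
    rw [h3, Fin.sum_univ_two, ← Algebra.coe_trace_int] at h4
    rw [← h4]
    simp
  have hno : r 0 * r 1 = ((Algebra.norm ℤ (u : 𝓞 K) : ℤ) : ℂ) := by
    have h3 : ∏ σ : K →ₐ[ℚ] ℂ, σ x = ∏ i, r i := by
      rw [← Equiv.prod_comp e]
    have h4 := Algebra.norm_eq_prod_embeddings ℚ ℂ x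
    rw [h3, Fin.prod_univ_two, ← Algebra.coe_norm_int] at h4
    rw [← h4]
    simp
  set t : ℤ := Algebra.trace ℤ (𝓞 K) (u : 𝓞 K) with ht
  set N : ℤ := Algebra.norm ℤ (u : 𝓞 K) with hN
  have hNu : IsUnit N := (Units.isUnit u).map (Algebra.norm ℤ)
  have ht2 : |t| ≤ 2 := by
    have h3 : ‖((t : ℤ) : ℂ)‖ < 3 := by
      rw [← htr]
      refine (norm_add_le _ _).trans_lt ?_
      have := (hb 0).2
      have := (hb 1).2
      linarith
    rw [Complex.norm_intCast] at h3
    have h4 : |t| < 3 := by exact_mod_cast h3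
    omega
  have hrel : r 0 ^ 2 - (t : ℂ) * r 0 + (N : ℂ) = 0 := by
    rw [← htr, ← hno]
    ring
  have hrelK : x ^ 2 - (t : K) * x + (N : K) = 0 := by
    apply (e 0).toRingHom.injective
    have : (e 0).toRingHom (x ^ 2 - (t : K) * x + (N : K)) =
        r 0 ^ 2 - (t : ℂ) * r 0 + (N : ℂ) := by
      rw [map_add, map_sub, map_pow, map_mul, map_intCast, map_intCast]
      rfl
    rw [this, hrel, map_zero]
  have hx12 : x ^ 12 = 1 := by
    rcases Int.isUnit_iff.1 hNu with h3 | h3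
    · rw [h3, Int.cast_one] at hrelK
      exact qub_cyc ht2 hrelK
    · rw [h3] at hrelK hrel
      by_cases ht0 : t = 0
      · rw [ht0] at hrelK
        have h4 : x ^ 2 = 1 := by push_cast at hrelK; linear_combination hrelK
        have : x ^ 12 = (x ^ 2) ^ 6 := by ring
        rw [this, h4, one_pow]
      · exact (qub_real ht0 (r := r 0) (by push_cast at hrel; linear_combination hrel)
          (hb 0).1 (hb 0).2).elim
  apply Units.ext
  have h5 : ((((u ^ 12 : (𝓞 K)ˣ) : 𝓞 K) : K)) = ((1 : 𝓞 K) : K) := by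
    push_cast
    simpa using hx12
  exact RingOfIntegers.ext h5

end Pool.Helper99.SZ
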