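import Mathlib
import Pool.Agent.Helper99.SZ.Stmts3

/-!
Module TOR3 of the crew project on MP_bde085_nt: the ratio of two conjugates of `κ` is not a
root of unity if the conjugates have different absolute values.
-/

set_option autoImplicit false

namespace Pool.Helper99.SZ

open NumberField

theorem tor3_nat {F : Type} [Field F] (x : F) (k : ℤ) (hk : k ≠ 0) (h : x ^ k = 1) :
    x ^ k.natAbs = 1 ∧ k.natAbs ≠ 0 := by
  refine ⟨?_, Int.natAbs_ne_zero.2 hk⟩
  rcases Int.natAbs_eq k with h1 | h1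
  · rw [← zpow_natCast, ← h1]
    exact h
  · have h2 : x ^ (-((k.natAbs : ℕ) : ℤ)) = 1 := by
      rw [← h1]
      exact h
    rw [zpow_neg, inv_eq_one, zpow_natCast] at h2
    exact h2

theorem st_TOR3 (hKER : BK.ST_KER) : ST_TOR3 := by
  intro K _ _ h3 σ hσ κ hκ hn k hk0 hk
  obtain ⟨h12, hN⟩ := tor3_nat _ k hk0 hk
  generalize k.natAbs = N at h12 hN
  have hd : σ 1 (κ : K) ≠ 0 := by
    intro h0
    rw [h0, div_zero, zero_pow hN] at h12
    exact zero_ne_one h12
  rw [div_pow, div_eq_one_iff_eq (pow_ne_zero N hd)] at h12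
  have hne : σ 2 ≠ σ 1 := by
    intro h
    have h4 : (2 : Fin 3) = 1 := hσ h
    exact absurd h4 (by decide)
  obtain ⟨q, hq⟩ := (hKER K h3 _ _ hne).1 ((κ : K) ^ N) (by
    rw [map_pow (σ 2), map_pow (σ 1), h12])
  have h5 : (σ 0 (κ : K)) ^ N = (σ 1 (κ : K)) ^ N := by
    rw [← map_pow (σ 0), ← map_pow (σ 1), hq]
    simp
  apply hn
  have h6 := congrArg (fun z : ℂ => ‖z‖) h5
  simp only [norm_pow] at h6
  exact (pow_left_inj₀ (norm_nonneg _) (norm_nonneg _) hN).1 h6

end Pool.Helper99.SZ
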